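import Mathlib
import Pool.Agent.R976.MP.Cyc7

/-!
# Rémond's inequality over fields generated by all roots of unity and periodic points

Let `Γ` be a torsion subgroup of the multiplicative group of the algebraic numbers, so that the
elements of `Γ_div` are the roots of unity. Let `p` be a prime number, `v` the `p`-adic place of `ℚ`
and `R` a natural number. Consider all the endomorphisms of the projective spaces `P^M` over `ℚ`
with `M ≤ R`, of degrees `p ^ s` with `1 ≤ s ≤ R`, which have good, purely inseparable reduction at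
`p` in some coordinates over `ℚ`; for instance all polynomials `X ^ (p ^ s) + p * g(X) + c` with
integer coefficients and with `g` of degree less than `p ^ s`, and, for `p = 2`, all polynomials
`X ^ 2 + c` with an integer `c`. Let `F` be the field generated over `ℚ(Γ_div)` by the
coordinates of all periodic points of all these maps, an infinite non-abelian extension of
`ℚ(Γ_div)`, the maximal abelian extension of `ℚ`. Then there is a constant `c > 0`, which depends
only on `p` and `R`, such that `h(α) ≥ c` for all `α ≠ 0` in `F` which are not in `Γ_div`. In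
particular Rémond's inequality `h(α) ≥ c / [ℚ(Γ_div, α) : ℚ(Γ_div)]` holds for all these `α`.
-/

set_option autoImplicit false

namespace Pool.Agent.Results.MP_f61260_nt.AbelianTimesPeriodic

open NumberField Module

/-- A tuple `G` of `M + 1` forms of degree `q` over the number field `k` has *good, purely
inseparable reduction* at the finite place `v`: all coefficients are `v`-integral, those of the
monomials which are not of the form `X_j ^ q` are in the maximal ideal, and the determinant of the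
coefficients of the `X_j ^ q` is a unit at `v`. -/
def GoodInseparable {k : Type} [Field k] [NumberField k] {M : ℕ} (v : FinitePlace k) (q : ℕ)
    (G : Fin (M + 1) → MvPolynomial (Fin (M + 1)) k) : Prop :=
  (∀ i m, v ((G i).coeff m) ≤ 1) ∧
  (∀ i m, (∀ j, m ≠ Finsupp.single j q) → v ((G i).coeff m) < 1) ∧
  v (Matrix.det (Matrix.of fun i j => (G i).coeff (Finsupp.single j q))) = 1

/-- The tuple `F` of forms of degree `q` over `K` has good, purely inseparable reduction at the
place `v` *in some coordinates over `K`*: there are an invertible matrix `A` over `K` and a tuple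
`G` of forms of degree `q` over `K` with `A ∘ F = G ∘ A` which has good, purely inseparable
reduction at `v`. -/
def InseparableOver {K : Type} [Field K] [NumberField K] {M : ℕ} (v : FinitePlace K) (q : ℕ)
    (F : Fin (M + 1) → MvPolynomial (Fin (M + 1)) K) : Prop :=
  (∀ i, (F i).IsHomogeneous q) ∧
  ∃ (A : Matrix (Fin (M + 1)) (Fin (M + 1)) K) (G : Fin (M + 1) → MvPolynomial (Fin (M + 1)) K),
    A.det ≠ 0 ∧ (∀ i, (G i).IsHomogeneous q) ∧
    (∀ i, ∑ j, MvPolynomial.C (A i j) * F j =
      MvPolynomial.bind₁ (fun l => ∑ j, MvPolynomial.C (A l j) * MvPolynomial.X j) (G i)) ∧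
    GoodInseparable v q G

/-- the map defined by a tuple of forms, on coordinate vectors over an extension -/
noncomputable def evalMap {K L : Type} [Field K] [Field L] [Algebra K L] {M : ℕ}
    (F : Fin (M + 1) → MvPolynomial (Fin (M + 1)) K) (y : Fin (M + 1) → L) : Fin (M + 1) → L :=
  fun i => MvPolynomial.aeval y (F i)

/-- the point with coordinate vector `y` is periodic -/
def Periodic {K L : Type} [Field K] [Field L] [Algebra K L] {M : ℕ}
    (F : Fin (M + 1) → MvPolynomial (Fin (M + 1)) K) (y : Fin (M + 1) → L) : Prop :=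
  y ≠ 0 ∧ ∃ j : ℕ, 1 ≤ j ∧ ∃ c : L, c ≠ 0 ∧ (evalMap F)^[j] y = c • y

/-- the (affine) coordinates `y i / y j` of the periodic points over `E` of all the endomorphisms
of `P^M` over `K`, `M ≤ R`, of degrees `p ^ s`, `1 ≤ s ≤ R`, with good, purely inseparable
reduction at `v` in some coordinates over `K` -/
def allPeriodic {K : Type} [Field K] [NumberField K] (v : FinitePlace K) (p R : ℕ) (E : Type)
    [Field E] [Algebra K E] : Set E :=
  {t | ∃ (M s : ℕ) (G : Fin (M + 1) → MvPolynomial (Fin (M + 1)) K) (y : Fin (M + 1) → E),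
    M ≤ R ∧ 1 ≤ s ∧ s ≤ R ∧ InseparableOver v (p ^ s) G ∧ Periodic G y ∧
    ∃ i j, y j ≠ 0 ∧ t = y i / y j}

/-- the division group of `Γ`, as a set of algebraic numbers -/
def divGroup (Γ : Subgroup (AlgebraicClosure ℚ)ˣ) : Set (AlgebraicClosure ℚ) :=
  {z | z ≠ 0 ∧ ∃ n : ℕ, 1 ≤ n ∧ ∃ g ∈ Γ, (g : AlgebraicClosure ℚ) = z ^ n}

/-- the field `ℚ(Γ_div)` -/
noncomputable def divField (Γ : Subgroup (AlgebraicClosure ℚ)ˣ) :
    IntermediateField ℚ (AlgebraicClosure ℚ) :=
  IntermediateField.adjoin ℚ (divGroup Γ)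

/-- the degree `D_Γ(α)` of `α` over `ℚ(Γ_div)` -/
noncomputable def deg (Γ : Subgroup (AlgebraicClosure ℚ)ˣ) (α : AlgebraicClosure ℚ) : ℕ :=
  (minpoly (divField Γ) α).natDegree

/-- the extension of `ℚ(Γ_div)` which is generated by all the periodic points as above -/
noncomputable def periodicField (Γ : Subgroup (AlgebraicClosure ℚ)ˣ) (v : FinitePlace ℚ)
    (p R : ℕ) : IntermediateField ℚ (AlgebraicClosure ℚ) :=
  divField Γ ⊔ IntermediateField.adjoin ℚ (allPeriodic v p R (AlgebraicClosure ℚ))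

lemma allPeriodic_sub {K : Type} [Field K] [NumberField K] (v : FinitePlace K) (p R : ℕ) (E : Type)
    [Field E] [Algebra K E] :
    allPeriodic v p R E ⊆ Pool.Agent.R976.MP.Proj.PerGenN v p (max R 1) E := by
  rintro t ⟨M, s, F, y, hM, hs, hsR, ⟨hF, A, G, hA, hG, hconj, h1, h2, h3⟩,
    ⟨-, j, hj, c, -, hper⟩, i, k, hk, rfl⟩
  refine ⟨M, F, y, hM.trans (le_max_left _ _), ⟨s, hs, hsR.trans (le_max_left _ _), hF, A, G, hA,
    hG, ?_, ⟨h1, h2, h3⟩⟩, ⟨j, hj, c, hper⟩, i, k, hk, rfl⟩
  intro i
  rw [← hconj i]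
  refine Finset.sum_congr rfl fun j _ => ?_
  rw [Algebra.algebraMap_self, MvPolynomial.map_id]

/-- **Main result.** -/
theorem result (p : ℕ) (hp : p.Prime) (v : FinitePlace ℚ) (hv : v (p : ℚ) < 1) (R : ℕ) :
    ∃ c : ℝ, 0 < c ∧ ∀ Γ : Subgroup (AlgebraicClosure ℚ)ˣ, (∀ g ∈ Γ, ∃ n : ℕ, 1 ≤ n ∧ g ^ n = 1) →
      ∀ α ∈ periodicField Γ v p R, α ≠ 0 → α ∉ divGroup Γ →
        c ≤ absLogHeight₁ α ∧ c / (deg Γ α : ℝ) ≤ absLogHeight₁ α := by
  obtain ⟨c, hc, h⟩ := Pool.Agent.R976.MP.Cyc.bog_inf v hp hv (R := max R 1) (le_max_right _ _)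
  refine ⟨c, hc, ?_⟩
  intro Γ hΓ α hα hα0 hαΓ
  have hdiv : divGroup Γ ⊆ {y : AlgebraicClosure ℚ | ∃ n : ℕ, 0 < n ∧ y ^ n = 1} := by
    rintro z ⟨hz, n, hn, g, hg, hgz⟩
    obtain ⟨m, hm, hgm⟩ := hΓ g hg
    refine ⟨n * m, Nat.mul_pos hn hm, ?_⟩
    rw [pow_mul, ← hgz, ← Units.val_pow_eq_pow_val, hgm, Units.val_one]
  have hle : periodicField Γ v p R ≤ IntermediateField.adjoin ℚ
      ({y : AlgebraicClosure ℚ | ∃ n : ℕ, 0 < n ∧ y ^ n = 1} ∪
        Pool.Agent.R976.MP.Proj.PerGenN v p (max R 1) (AlgebraicClosure ℚ)) := by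
    refine sup_le ?_ ?_
    · exact IntermediateField.adjoin.mono ℚ _ _ (hdiv.trans Set.subset_union_left)
    · exact IntermediateField.adjoin.mono ℚ _ _
        ((allPeriodic_sub v p R _).trans Set.subset_union_right)
  have hroot : ∀ n : ℕ, 0 < n → α ^ n ≠ 1 := by
    intro n hn h1
    exact hαΓ ⟨hα0, n, hn, 1, Γ.one_mem, by rw [h1, Units.val_one]⟩
  have h1 : c ≤ absLogHeight₁ α := h α (hle hα) hα0 hroot
  refine ⟨h1, le_trans ?_ h1⟩
  rcases Nat.eq_zero_or_pos (deg Γ α) with h0 | h0
  · rw [h0, Nat.cast_zero, div_zero]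
    exact hc.le
  · exact div_le_self hc.le (by exact_mod_cast h0)

end Pool.Agent.Results.MP_f61260_nt.AbelianTimesPeriodic
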