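import Mathlib
import Pool.Agent.R329.RelC.Main

/-!
# Rémond's inequality and divisibility of cyclotomic values

Let `F` be any field of complex numbers, for instance `F = ℚ(Γ_div)` for a subgroup `Γ` of `ℂ*`. Let
`α` be an algebraic integer, neither `0` nor a root of unity, `d` its degree over `F` (that is
`d = D_Γ(α)` for `F = ℚ(Γ_div)`), such that no quotient of two distinct conjugates of `α` over `F` is a
root of unity. Let `T` be a monic polynomial of degree `D ≥ 1` with integer coefficients such that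
`T(X)` divides `T(X ^ l)` for all `l ≥ 1`; for instance any product of polynomials `X ^ a - 1`, with
arbitrarily many factors and with repetitions.

(1) If `q ≥ 2` and `m ≥ 1` are integers such that `T(α ^ m)` is divisible by `q` in the ring of all
algebraic integers, then `m d h(α) ≥ min (x, x ^ 2 / log (2 d D q)) / 20`, where `x = d log q / D`.

(2) So, for all subgroups `Γ` of `ℂ*`, Rémond's inequality `h(α) ≥ c / D_Γ(α)` holds with
`c = min (log 2 / H, 1 / (κ H ^ 2)) / (20 m)`, if `D ≤ H d` and `log (2 d D q) ≤ κ (log q) ^ 2`.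

The hypothesis is satisfied if the minimal polynomial of `α` over `F` divides `T(X ^ m)` modulo `q`;
if `q` is a prime number and `m = q ^ s`, it is satisfied if it divides `T ^ m` modulo `q`. For bounded
`m` and `D / d`, (1) gives `h(α) ≥ c / (d log (2 d))` for all `q ≥ 2`, and Rémond's inequality for
`q ≥ exp (√(log (2 d)))`.

Method: the Vandermonde determinant of the powers `z ^ (m l)`, `l = 1, …, k`, of the conjugates `z` of
`α` over `F` is divisible by `q ^ (∑ j < k d, ⌊j / D⌋)`, because `T(z ^ m)` divides `T(z ^ (m l))`; its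
norm from the Galois closure of `ℚ(α)` to `ℚ` is bounded from above by Hadamard's inequality.
-/

set_option autoImplicit false

open Polynomial

namespace Pool.Agent.Results.MP_f61260_nt.CyclotomicDivisibility

/-- The absolute logarithmic Weil height of an algebraic integer. -/
noncomputable def height (α : ℂ) : ℝ :=
  Real.log ((minpoly ℤ α).map (Int.castRingHom ℂ)).mahlerMeasure / (minpoly ℤ α).natDegree

/-- No quotient of two distinct conjugates of `α` over `F` is a root of unity. -/
def Nondegenerate (F : IntermediateField ℚ ℂ) (α : ℂ) : Prop :=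
  ∀ z w : ℂ, z ∈ (minpoly F α).rootSet ℂ → w ∈ (minpoly F α).rootSet ℂ → z ≠ w →
    ∀ n : ℕ, 0 < n → z ^ n ≠ w ^ n

/-- `T` is monic, not constant, and `T(X)` divides `T(X ^ l)` for all `l ≥ 1`. -/
def PowerClosed (T : ℤ[X]) : Prop :=
  T.Monic ∧ 1 ≤ T.natDegree ∧ ∀ l : ℕ, 1 ≤ l → T ∣ T.comp (X ^ l)

/-- `T(α ^ m)` is divisible by `q` in the ring of algebraic integers. -/
def DivisibleValue (T : ℤ[X]) (α : ℂ) (m q : ℕ) : Prop :=
  ∃ γ : ℂ, IsIntegral ℤ γ ∧ aeval (α ^ m) T = q * γ

/-- The division group `Γ_div` of `Γ`. -/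
def divGroup (Γ : Subgroup ℂˣ) : Set ℂ :=
  {z : ℂ | z ≠ 0 ∧ ∃ n : ℕ, 1 ≤ n ∧ ∃ g ∈ Γ, (g : ℂ) = z ^ n}

/-- The field `ℚ(Γ_div)`. -/
noncomputable def divField (Γ : Subgroup ℂˣ) : IntermediateField ℚ ℂ :=
  IntermediateField.adjoin ℚ (divGroup Γ)

theorem result :
    -- (1) relative to an arbitrary field `F`
    (∀ (F : IntermediateField ℚ ℂ) (α : ℂ), IsIntegral ℤ α → 0 < height α → Nondegenerate F α →
      ∀ T : ℤ[X], PowerClosed T → ∀ q m : ℕ, 2 ≤ q → 1 ≤ m → DivisibleValue T α m q →
      ∀ x : ℝ, x = (minpoly F α).natDegree * Real.log q / T.natDegree →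
      min x (x ^ 2 / Real.log (2 * (minpoly F α).natDegree * T.natDegree * q)) / 20 ≤
        m * ((minpoly F α).natDegree * height α)) ∧
    -- (2) Rémond's inequality, in the notation of the problem
    (∀ (Γ : Subgroup ℂˣ) (α : ℂ), IsIntegral ℤ α → 0 < height α →
      Nondegenerate (divField Γ) α → ∀ T : ℤ[X], PowerClosed T → ∀ q m : ℕ, 2 ≤ q → 1 ≤ m →
      DivisibleValue T α m q → ∀ H κ : ℝ, 0 < H → 0 < κ →
      (T.natDegree : ℝ) ≤ H * (minpoly (divField Γ) α).natDegree →
      Real.log (2 * (minpoly (divField Γ) α).natDegree * T.natDegree * q) ≤ κ * Real.log q ^ 2 →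
      ∀ f : ℤ[X], Irreducible f → aeval α f = 0 →
        (min (Real.log 2 / H) (1 / (κ * H ^ 2)) / (20 * m)) /
            ((minpoly (divField Γ) α).natDegree : ℝ) ≤
          Real.log ((f.map (Int.castRingHom ℂ)).mahlerMeasure) / (f.natDegree : ℝ)) := by
  have key : ∀ (F : IntermediateField ℚ ℂ) (α : ℂ), IsIntegral ℤ α → 0 < height α →
      Nondegenerate F α → ∀ T : ℤ[X], PowerClosed T → ∀ q m : ℕ, 2 ≤ q → 1 ≤ m →
      DivisibleValue T α m q →
      ∀ x : ℝ, x = (minpoly F α).natDegree * Real.log q / T.natDegree →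
      min x (x ^ 2 / Real.log (2 * (minpoly F α).natDegree * T.natDegree * q)) / 20 ≤
        m * ((minpoly F α).natDegree * height α) := by
    intro F α hα hh hnd T hT q m hq hm hval x hx
    exact Pool.Agent.R329.RelC.main F hα hh hnd T hT.1 hT.2.1 hT.2.2 q m hq hm hval x hx
  refine ⟨key, ?_⟩
  intro Γ α hα hh hnd T hT q m hq hm hval H κ hH hκ hD hlog f hf h0
  rw [Pool.Agent.TH860.LP.hgt_eq hα f hf h0]
  have h1 := key (divField Γ) α hα hh hnd T hT q m hq hm hval _ rfl
  have hd : (0 : ℝ) < (minpoly (divField Γ) α).natDegree := by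
    have : IsIntegral (divField Γ) α := hα.tower_top
    exact_mod_cast minpoly.natDegree_pos this
  have hT0 : (0 : ℝ) < T.natDegree := by exact_mod_cast hT.2.1
  have hm0 : (0 : ℝ) < m := by exact_mod_cast hm
  have hq0 : (2 : ℝ) ≤ q := by exact_mod_cast hq
  have hlq : 0 < Real.log q := Real.log_pos (by linarith)
  have hlog2 : Real.log 2 ≤ Real.log q := Real.log_le_log (by norm_num) hq0
  have hd1 : (1 : ℝ) ≤ ((minpoly (divField Γ) α).natDegree : ℝ) := by
    have : IsIntegral (divField Γ) α := hα.tower_top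
    exact_mod_cast minpoly.natDegree_pos this
  have hD1 : (1 : ℝ) ≤ (T.natDegree : ℝ) := by exact_mod_cast hT.2.1
  set d : ℝ := ((minpoly (divField Γ) α).natDegree : ℝ) with hdd
  set D : ℝ := (T.natDegree : ℝ) with hDD
  set x : ℝ := d * Real.log q / D with hx
  have hx1 : Real.log q / H ≤ x := by
    rw [hx, div_le_div_iff₀ hH hT0]
    nlinarith
  have hx2 : Real.log 2 / H ≤ x := le_trans (by gcongr) hx1
  have hlogpos : 0 < Real.log (2 * d * D * q) := by
    apply Real.log_pos
    have : (1 : ℝ) ≤ d * D := by nlinarith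
    nlinarith
  have hx3 : 1 / (κ * H ^ 2) ≤ x ^ 2 / Real.log (2 * d * D * q) := by
    rw [div_le_div_iff₀ (by positivity) hlogpos, one_mul]
    have h2 : (Real.log q / H) ^ 2 ≤ x ^ 2 := by gcongr
    have h3 : (Real.log q / H) ^ 2 * (κ * H ^ 2) = κ * Real.log q ^ 2 := by
      field_simp
    have h4 : (Real.log q / H) ^ 2 * (κ * H ^ 2) ≤ x ^ 2 * (κ * H ^ 2) := by gcongr
    linarith
  have h5 : min (Real.log 2 / H) (1 / (κ * H ^ 2)) ≤
      min x (x ^ 2 / Real.log (2 * d * D * q)) := min_le_min hx2 hx3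
  have h6 : height α = Pool.Agent.TH860.LP.hgt α := rfl
  rw [← h6, div_div, div_le_iff₀ (by positivity)]
  calc min (Real.log 2 / H) (1 / (κ * H ^ 2)) ≤ min x (x ^ 2 / Real.log (2 * d * D * q)) := h5
    _ ≤ 20 * (m * (d * height α)) := by linarith
    _ = height α * (20 * m * d) := by ring

end Pool.Agent.Results.MP_f61260_nt.CyclotomicDivisibility
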