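import Mathlib
import Pool.Agent.R719.RD.Glo

/-!
# Rémond's inequality and dominating coefficients

Let `F` be any algebraic extension of `ℚ`, for instance `F = ℚ(Γ_div)`. Let `α` be a nonzero
algebraic number and `g` its minimal polynomial over `F`, of degree `d = [F(α) : F]`. Let `E ⊂ F` be
a number field which contains the coefficients of `g`.

(1) Let `δ` be the proportion of those embeddings `σ` of `E` into `ℂ` for which some coefficient of
`σ(g)` is, in absolute value, at least the sum of the absolute values of all its other coefficients,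
and is neither the first, nor the last, nor the middle coefficient (the coefficient of `X ^ (d / 2)`,
if `d` is even). Then `d h(α) ≥ δ log (9 / 8) / 2`.

(2) Let `α` be an algebraic integer. Let `J` be a nonempty set of exponents of nonzero coefficients
of `g` such that for every embedding `σ` of `E` some coefficient of `σ(g)` with exponent outside `J`
is, in absolute value, at least the sum of the absolute values of all its other coefficients. Then
`d h(α) ≥ log (|J| / 2)`.

(3) (1) for `F = ℚ(Γ_div)`, in the notation of the problem.

Here the dominating coefficient may depend on `σ`, and the constants do not depend on `F`, `E`, `α`.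
The main point is the local estimate `M(p) ^ 2 ≥ 9 / 8 |p(0)|` for a monic complex polynomial `p`
with a dominating coefficient as in (1), although `|p|` may have zeros on the unit circle and both
`|p(0)|` and the dominating coefficient may be arbitrarily small or close to the other terms.
-/

set_option autoImplicit false

open Polynomial

namespace Pool.Agent.Results.MP_f61260_nt.DominatingCoefficients

/-- In absolute value, the coefficient of `X ^ k` in `p` is at least the sum of all the other
coefficients of `p`. -/
def Dominant (p : ℂ[X]) (k : ℕ) : Prop :=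
  ∑ j ∈ p.support.erase k, ‖p.coeff j‖ ≤ ‖p.coeff k‖

/-- Some coefficient of `p` dominates the others, and it is neither the first, nor the last, nor
the middle coefficient. -/
def Lopsided (p : ℂ[X]) : Prop :=
  ∃ k, 0 < k ∧ k < p.natDegree ∧ 2 * k ≠ p.natDegree ∧ Dominant p k

/-- The field generated by the division group of `Γ`. -/
noncomputable def divField (Γ : Subgroup (AlgebraicClosure ℚ)ˣ) :
    IntermediateField ℚ (AlgebraicClosure ℚ) :=
  IntermediateField.adjoin ℚ
    {y | ∃ n : ℕ, 0 < n ∧ ∃ g ∈ Γ, y ^ n = (g : AlgebraicClosure ℚ)}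

/-- The minimal polynomial over a subfield which contains the coefficients. -/
theorem descent {F E : IntermediateField ℚ (AlgebraicClosure ℚ)} (h : E ≤ F)
    (α : AlgebraicClosure ℚ) (g : E[X])
    (hg : g.map (IntermediateField.inclusion h : E →+* F) = minpoly F α) :
    g = minpoly E α ∧ (minpoly F α).natDegree = (minpoly E α).natDegree := by
  have hF : IsIntegral F α := Pool.Agent.H58P.alg_isIntegral F α
  have hgm : g.Monic := by
    have h1 := minpoly.monic hF
    rw [← hg] at h1
    exact Polynomial.monic_of_injective
      (f := (IntermediateField.inclusion h : E →+* F)) (RingHom.injective _) h1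
  have hirr : Irreducible g := by
    have h1 := minpoly.irreducible hF
    rw [← hg] at h1
    exact hgm.irreducible_of_irreducible_map _ g h1
  have h0 : aeval α g = 0 := by
    have h1 := minpoly.aeval F α
    rw [← hg, aeval_def, eval₂_map] at h1
    exact h1
  have h2 := minpoly.eq_of_irreducible_of_monic hirr h0 hgm
  refine ⟨h2, ?_⟩
  rw [← h2, ← hg]
  exact natDegree_map_eq_of_injective (RingHom.injective _) g

theorem result :
    -- (1) a positive proportion of the embeddings
    (∀ (F : IntermediateField ℚ (AlgebraicClosure ℚ)) (α : AlgebraicClosure ℚ), α ≠ 0 →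
      ∀ E : IntermediateField ℚ (AlgebraicClosure ℚ), FiniteDimensional ℚ E → ∀ (h : E ≤ F)
      (g : E[X]), g.map (IntermediateField.inclusion h : E →+* F) = minpoly F α →
      (Nat.card {σ : E →+* ℂ // Lopsided (g.map σ)} : ℝ) / Module.finrank ℚ E *
          (Real.log (9 / 8) / 2) ≤
        (minpoly F α).natDegree * NumberField.absLogHeight₁ α) ∧
    -- (2) all embeddings
    (∀ (F : IntermediateField ℚ (AlgebraicClosure ℚ)) (α : AlgebraicClosure ℚ), IsIntegral ℤ α →
      ∀ E : IntermediateField ℚ (AlgebraicClosure ℚ), FiniteDimensional ℚ E → ∀ (h : E ≤ F)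
      (g : E[X]), g.map (IntermediateField.inclusion h : E →+* F) = minpoly F α →
      ∀ J : Finset ℕ, J.Nonempty → (∀ j ∈ J, g.coeff j ≠ 0) →
      (∀ σ : E →+* ℂ, ∃ k, k ∉ J ∧ Dominant (g.map σ) k) →
      Real.log (J.card / 2) ≤ (minpoly F α).natDegree * NumberField.absLogHeight₁ α) ∧
    -- (3) Rémond's inequality
    (∀ (Γ : Subgroup (AlgebraicClosure ℚ)ˣ) (α : AlgebraicClosure ℚ), α ≠ 0 →
      ∀ E : IntermediateField ℚ (AlgebraicClosure ℚ), FiniteDimensional ℚ E →
      ∀ (h : E ≤ divField Γ) (g : E[X]),
      g.map (IntermediateField.inclusion h : E →+* divField Γ) = minpoly (divField Γ) α →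
      ∀ δ : ℝ, δ * Module.finrank ℚ E ≤ Nat.card {σ : E →+* ℂ // Lopsided (g.map σ)} →
      δ * (Real.log (9 / 8) / 2) / (minpoly (divField Γ) α).natDegree ≤
        NumberField.absLogHeight₁ α) := by
  have main : ∀ (E : IntermediateField ℚ (AlgebraicClosure ℚ)), FiniteDimensional ℚ E →
      ∀ α : AlgebraicClosure ℚ,
      (α ≠ 0 → (Nat.card {σ : E →+* ℂ // Lopsided ((minpoly E α).map σ)} : ℝ) *
        Real.log (9 / 8) ≤ 2 * (Module.finrank ℚ E * (minpoly E α).natDegree *
          NumberField.absLogHeight₁ α)) ∧
      (IsIntegral ℤ α → ∀ J : Finset ℕ, 0 < J.card → (∀ j ∈ J, (minpoly E α).coeff j ≠ 0) →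
        (∀ σ : E →+* ℂ, ∃ k, k ∉ J ∧ Dominant ((minpoly E α).map σ) k) →
        (Module.finrank ℚ E : ℝ) * Real.log (J.card / 2) ≤ Module.finrank ℚ E *
          (minpoly E α).natDegree * NumberField.absLogHeight₁ α) := by
    intro E hE α
    have hEn : NumberField E := { to_charZero := inferInstance, to_finiteDimensional := hE }
    have hαE : IsIntegral E α := Pool.Agent.H58P.alg_isIntegral E α
    have hfd : FiniteDimensional E (IntermediateField.adjoin E {α}) :=
      IntermediateField.adjoin.finiteDimensional hαE
    have hfq : FiniteDimensional ℚ (IntermediateField.adjoin E {α}) :=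
      FiniteDimensional.trans ℚ E _
    have hLn : NumberField (IntermediateField.adjoin E {α}) :=
      { to_charZero := inferInstance, to_finiteDimensional := hfq }
    set x : IntermediateField.adjoin E {α} := IntermediateField.AdjoinSimple.gen E α with hx
    have hxα : algebraMap (IntermediateField.adjoin E {α}) (AlgebraicClosure ℚ) x = α :=
      IntermediateField.AdjoinSimple.algebraMap_gen E α
    have hmin : minpoly E x = minpoly E α := by
      have h1 := minpoly.algebraMap_eq (A := E)
        (algebraMap (IntermediateField.adjoin E {α}) (AlgebraicClosure ℚ)).injective x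
      rw [hxα] at h1
      exact h1.symm
    have hrk : Module.finrank ℚ (IntermediateField.adjoin E {α}) =
        Module.finrank ℚ E * (minpoly E α).natDegree := by
      rw [← Module.finrank_mul_finrank ℚ E (IntermediateField.adjoin E {α}),
        IntermediateField.adjoin.finrank hαE]
    have hht := Pool.Agent.R719.RD.ht_eq
      (algebraMap (IntermediateField.adjoin E {α}) (AlgebraicClosure ℚ)) x
    rw [hxα, hrk] at hht
    push_cast at hht
    constructor
    · intro hα
      have hx0 : x ≠ 0 := by
        intro h0
        rw [h0, map_zero] at hxα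
        exact hα hxα.symm
      have h1 := Pool.Agent.R719.RD.glob1 (K := E) x hx0
      rw [hmin, ← hht] at h1
      exact h1
    · intro hα J hJ hJ0 hd
      have hxi : IsIntegral ℤ x := by
        rw [← hxα] at hα
        exact (isIntegral_algebraMap_iff
          (algebraMap (IntermediateField.adjoin E {α}) (AlgebraicClosure ℚ)).injective).1 hα
      have h1 := Pool.Agent.R719.RD.glob2 (K := E) x hxi J hJ (by rw [hmin]; exact hJ0)
        (by rw [hmin]; exact hd)
      rw [← hht] at h1
      exact h1
  have part1 : ∀ (F : IntermediateField ℚ (AlgebraicClosure ℚ)) (α : AlgebraicClosure ℚ), α ≠ 0 →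
      ∀ E : IntermediateField ℚ (AlgebraicClosure ℚ), FiniteDimensional ℚ E → ∀ (h : E ≤ F)
      (g : E[X]), g.map (IntermediateField.inclusion h : E →+* F) = minpoly F α →
      (Nat.card {σ : E →+* ℂ // Lopsided (g.map σ)} : ℝ) / Module.finrank ℚ E *
          (Real.log (9 / 8) / 2) ≤
        (minpoly F α).natDegree * NumberField.absLogHeight₁ α := by
    intro F α hα E hE h g hg
    obtain ⟨h1, h2⟩ := descent h α g hg
    have h3 := (main E hE α).1 hα
    rw [h2, h1]
    have hpos : (0 : ℝ) < Module.finrank ℚ E := by exact_mod_cast Module.finrank_pos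
    rw [div_mul_eq_mul_div, div_le_iff₀ hpos]
    linarith
  refine ⟨part1, ?_, ?_⟩
  · intro F α hα E hE h g hg J hJ hJ0 hd
    obtain ⟨h1, h2⟩ := descent h α g hg
    subst h1
    have h3 := (main E hE α).2 hα J (Finset.card_pos.2 hJ) hJ0 hd
    rw [h2]
    have hpos : (0 : ℝ) < Module.finrank ℚ E := by exact_mod_cast Module.finrank_pos
    rw [mul_assoc] at h3
    exact le_of_mul_le_mul_left h3 hpos
  · intro Γ α hα E hE h g hg δ hδ
    have h1 := part1 (divField Γ) α hα E hE h g hg
    have hpos : (0 : ℝ) < Module.finrank ℚ E := by exact_mod_cast Module.finrank_pos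
    have hlog : 0 < Real.log (9 / 8) := Real.log_pos (by norm_num)
    have hF : IsIntegral (divField Γ) α := Pool.Agent.H58P.alg_isIntegral _ α
    have hd : (0 : ℝ) < (minpoly (divField Γ) α).natDegree := by
      exact_mod_cast minpoly.natDegree_pos hF
    rw [div_le_iff₀ hd]
    have h2 : δ ≤ (Nat.card {σ : E →+* ℂ // Lopsided (g.map σ)} : ℝ) / Module.finrank ℚ E := by
      rw [le_div_iff₀ hpos]
      exact hδ
    calc δ * (Real.log (9 / 8) / 2) ≤
        (Nat.card {σ : E →+* ℂ // Lopsided (g.map σ)} : ℝ) / Module.finrank ℚ E *
          (Real.log (9 / 8) / 2) := by gcongr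
      _ ≤ (minpoly (divField Γ) α).natDegree * NumberField.absLogHeight₁ α := h1
      _ = _ := by ring

end Pool.Agent.Results.MP_f61260_nt.DominatingCoefficients
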