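import Mathlib
import Pool.Agent.W110.RA.K

/-!
# Rémond's inequality for Hermitian matrices over cyclotomic fields

Let `H` be a Hermitian matrix (of any size `n`) over the integers of a cyclotomic field
`E = ℚ(ζ_m)` (any `m`; complex conjugation commutes with the embeddings, so all conjugates `σH` are
Hermitian), and let `P_A(X) = X ^ n χ_A(X + 1 / X)` for an `n × n` matrix `A`.

(1) (Lehmer's problem relative to `ℚ(μ_∞)`) The product of the Mahler measures of the `P_{σH}`, over
all embeddings `σ` of `E`, is `1` or at least `exp (c [E : ℚ])`, with an absolute constant `c > 0`;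
equivalently, the sum of the heights of the zeros of `P_H` is `0` or at least `c`. In the second
case this is so for some principal submatrix of bounded size.

(2) Let `Γ` be a group of nonzero complex numbers and `α` a number, not a root of unity, whose
minimal polynomial over `ℚ(Γ_div)` is, up to a factor all of whose zeros are roots of unity, equal to
`P_{σH}` for such an `H`. Then `h(α) ≥ c / D_Γ(α)`.
-/

set_option autoImplicit false

namespace Pool.Agent.Results.MP_f61260_nt.HermitianCyclotomic

open Polynomial NumberField Module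

noncomputable section

/-- For an `n × n` matrix `A` this is the polynomial `X ^ n * χ_A (X + 1 / X)`, that is, the
determinant of `(X ^ 2 + 1) * I - X * A`. -/
def reciprocal {R : Type*} [CommRing R] {κ : Type*} [Fintype κ] [DecidableEq κ]
    (A : Matrix κ κ R) : R[X] :=
  (Matrix.scalar κ (X ^ 2 + 1 : R[X]) - (X : R[X]) • A.map C).det

/-- the conjugate of a matrix over the integers of `E` under the embedding `σ` of `E` -/
def conj {E : Type} [Field E] (σ : E →+* ℂ) {κ : Type*} (H : Matrix κ κ (𝓞 E)) :
    Matrix κ κ ℂ :=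
  H.map fun x => σ (x : E)

/-- all conjugates of the matrix are Hermitian -/
def AllHermitian {E : Type} [Field E] {κ : Type*} (H : Matrix κ κ (𝓞 E)) : Prop :=
  ∀ σ : E →+* ℂ, (conj σ H).IsHermitian

/-- the principal submatrix with the rows and columns in `V` -/
def principal {R : Type*} {n : ℕ} (A : Matrix (Fin n) (Fin n) R) (V : Finset (Fin n)) :
    Matrix V V R :=
  A.submatrix Subtype.val Subtype.val

/-- the sum of the logarithmic Mahler measures of the polynomials `reciprocal` of all conjugates
of the principal submatrix with the rows in `V` -/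
def total {E : Type} [Field E] [NumberField E] {n : ℕ} (H : Matrix (Fin n) (Fin n) (𝓞 E))
    (V : Finset (Fin n)) : ℝ :=
  ∑ σ : E →+* ℂ, Real.log (reciprocal (conj σ (principal H V))).mahlerMeasure

/-- the division group of `Γ` -/
def divGroup (Γ : Subgroup ℂˣ) : Set ℂ :=
  {z : ℂ | z ≠ 0 ∧ ∃ n : ℕ, 1 ≤ n ∧ ∃ g ∈ Γ, (g : ℂ) = z ^ n}

/-- the field generated by the division group of `Γ` -/
def divField (Γ : Subgroup ℂˣ) : IntermediateField ℚ ℂ := IntermediateField.adjoin ℚ (divGroup Γ)

/-- the degree `D_Γ(α)` of `α` over the field generated by the division group -/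
def deg (Γ : Subgroup ℂˣ) (α : ℂ) : ℕ := (minpoly (divField Γ) α).natDegree

/-- The minimal polynomial of `α` over the field generated by the division group of `Γ` is, up to
a factor all of whose zeros are roots of unity, the polynomial `X ^ n * χ (X + 1 / X)` of a
conjugate of a Hermitian matrix over the integers of a cyclotomic field. -/
def OfHermitian (Γ : Subgroup ℂˣ) (α : ℂ) : Prop :=
  ∃ (m : ℕ) (E : Type) (_ : Field E) (_ : NumberField E) (_ : IsCyclotomicExtension {m} ℚ E)
    (n : ℕ) (H : Matrix (Fin n) (Fin n) (𝓞 E)) (σ : E →+* ℂ) (Q : ℂ[X]),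
    m ≠ 0 ∧ AllHermitian H ∧
    reciprocal (conj σ H) = (minpoly (divField Γ) α).map (algebraMap (divField Γ) ℂ) * Q ∧
    ∀ w : ℂ, Q.eval w = 0 → ∃ k : ℕ, 0 < k ∧ w ^ k = 1

lemma total_eq {E : Type} [Field E] [NumberField E] {n : ℕ} {H : Matrix (Fin n) (Fin n) (𝓞 E)}
    (hH : AllHermitian H) (V : Finset (Fin n)) : total H V = Pool.Agent.W110.RA.LL H V := by
  unfold total Pool.Agent.W110.RA.LL
  refine Finset.sum_congr rfl fun σ _ => ?_
  have h1 := Pool.Agent.W110.RA.zp_mahler (Pool.Agent.W242.IM.sm_hermitian (hH σ) V)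
  rw [logMahlerMeasure_eq_log_MahlerMeasure] at h1
  exact h1

/-- **Main result.** -/
theorem result : ∃ (c : ℝ) (N : ℕ), 0 < c ∧
    (∀ (m : ℕ) (E : Type) [Field E] [NumberField E] [IsCyclotomicExtension {m} ℚ E] (n : ℕ)
      (H : Matrix (Fin n) (Fin n) (𝓞 E)), m ≠ 0 → AllHermitian H →
      total H Finset.univ = 0 ∨
        ∃ V : Finset (Fin n), V.card ≤ N ∧ c * finrank ℚ E ≤ total H V ∧
          total H V ≤ total H Finset.univ) ∧
    ∀ (Γ : Subgroup ℂˣ) (α : ℂ), (∀ k : ℕ, 0 < k → α ^ k ≠ 1) → OfHermitian Γ α →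
      ∀ f : ℤ[X], Irreducible f → aeval α f = 0 →
        c / deg Γ α ≤ Real.log (f.map (Int.castRingHom ℂ)).mahlerMeasure / f.natDegree := by
  obtain ⟨c, N, hc, h⟩ := Pool.Agent.W110.RA.main
  refine ⟨c, N, hc, ?_, ?_⟩
  · intro m E _ _ _ n H hm hH
    by_cases h0 : total H Finset.univ = 0
    · exact Or.inl h0
    · right
      rw [total_eq hH] at h0
      obtain ⟨V, -, h1, h2, h3⟩ := h m E n H hm hH Finset.univ h0
      refine ⟨V, h1, ?_, ?_⟩
      · rw [total_eq hH]
        exact h2
      · rw [total_eq hH, total_eq hH]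
        exact h3
  · intro Γ α hα hO f hf hfα
    obtain ⟨m, E, _, _, _, n, H, σ, Q, hm, hH, hQ, hQr⟩ := hO
    refine Pool.Agent.W110.RA.remond (H := H) ?_ hH σ (divField Γ) α hα Q hQ hQr f hf hfα
    by_cases h0 : Pool.Agent.W110.RA.LL H Finset.univ = 0
    · exact Or.inr h0
    · left
      obtain ⟨V, -, h1, h2, h3⟩ := h m E n H hm hH Finset.univ h0
      exact h2.trans h3

end

end Pool.Agent.Results.MP_f61260_nt.HermitianCyclotomic
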